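import Pool.Agent.Y264.QR.Stm

/-!
# QR-CM: measurability on `C(M, ℝ)` (helper689)
-/

set_option autoImplicit false

open Set Filter Topology MeasureTheory
open scoped Real ContDiff

namespace Pool.Agent.Y689.QR

open Pool.Agent.Y264.QR

/-- integration is continuous on continuous functions -/
theorem int_cont {M : Type} [MetricSpace M] [CompactSpace M] [MeasurableSpace M] [BorelSpace M]
    (μ : Measure M) [IsFiniteMeasure μ] : Continuous fun g : C(M, ℝ) => ∫ x, g x ∂μ := by
  have hint : ∀ g : C(M, ℝ), Integrable (fun x => g x) μ := fun g =>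
    g.continuous.integrable_of_hasCompactSupport (HasCompactSupport.of_compactSpace _)
  have hl : LipschitzWith (μ.real univ).toNNReal fun g : C(M, ℝ) => ∫ x, g x ∂μ := by
    apply LipschitzWith.of_dist_le_mul
    intro g g'
    rw [Real.dist_eq, dist_eq_norm, ← integral_sub (hint g) (hint g'), ← Real.norm_eq_abs]
    have h1 := norm_integral_le_of_norm_le_const (μ := μ) (f := fun x => g x - g' x)
      (C := ‖g - g'‖) (Eventually.of_forall fun x => (g - g').norm_coe_le_norm x)
    rw [Real.coe_toNNReal _ measureReal_nonneg, mul_comm]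
    exact h1
  exact hl.continuous

theorem exp_cont {M : Type} [MetricSpace M] [CompactSpace M] :
    Continuous fun φ : C(M, ℝ) => (⟨Real.exp, Real.continuous_exp⟩ : C(ℝ, ℝ)).comp φ :=
  ContinuousMap.continuous_postcomp _

theorem cm : StCM := by
  intro M _ _ _ _ μ _ _ _
  refine ⟨?_, ?_, ?_, ?_⟩
  · intro F hF h
    have hc : Continuous (Function.uncurry fun (φ : C(M, ℝ)) (t : ℝ) => F (φ + t • h)) := by
      have h1 : Continuous fun p : C(M, ℝ) × ℝ => p.1 + p.2 • h := by fun_prop
      exact hF.comp h1
    have hm : Measurable fun φ : C(M, ℝ) => ((φ, 0) : C(M, ℝ) × ℝ) :=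
      measurable_id.prodMk measurable_const
    constructor
    · exact (measurable_deriv_with_param hc).comp hm
    · exact hm (measurableSet_of_differentiableAt_with_param ℝ hc)
  · intro f
    rcases eq_or_ne μ 0 with h0 | h0
    · have e : (fun φ => avg μ f φ) = fun _ => (0 : ℝ) := by
        funext φ
        rw [avg, h0, integral_zero_measure, zero_div]
      rw [e]
      exact continuous_const
    · have hne : NeZero μ := ⟨h0⟩
      unfold avg
      refine Continuous.div ?_ ?_ ?_
      · exact (int_cont μ).comp (continuous_const.mul exp_cont : Continuous fun φ : C(M, ℝ) =>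
          f * (⟨Real.exp, Real.continuous_exp⟩ : C(ℝ, ℝ)).comp φ)
      · exact (int_cont μ).comp exp_cont
      · intro φ
        refine (integral_exp_pos ?_).ne'
        exact (Real.continuous_exp.comp φ.continuous).integrable_of_hasCompactSupport
          (HasCompactSupport.of_compactSpace _)
  · intro f φ
    have hI : Integrable (fun x => Real.exp (φ x)) μ :=
      (Real.continuous_exp.comp φ.continuous).integrable_of_hasCompactSupport
        (HasCompactSupport.of_compactSpace _)
    have h0 : 0 ≤ ∫ x, Real.exp (φ x) ∂μ := integral_nonneg fun x => (Real.exp_pos _).le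
    rw [avg, abs_div, abs_of_nonneg h0]
    refine div_le_of_le_mul₀ h0 (norm_nonneg _) ?_
    rw [← integral_const_mul, ← Real.norm_eq_abs]
    refine norm_integral_le_of_norm_le (hI.const_mul _) (Eventually.of_forall fun x => ?_)
    rw [norm_mul, Real.norm_of_nonneg (Real.exp_pos _).le]
    exact mul_le_mul_of_nonneg_right (f.norm_coe_le_norm x) (Real.exp_pos _).le
  · intro P h hac
    refine ⟨?_, ?_, ?_, hac⟩
    · have h1 : Continuous fun p : ℝ × C(M, ℝ) => p.2 + p.1 • h := by fun_prop
      exact h1.measurable
    · intro φ
      rw [zero_smul, add_zero]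
    · intro s t φ
      rw [add_smul, add_assoc, add_comm (s • h)]

end Pool.Agent.Y689.QR
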